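import Pool.Agent.H44R2.Stk.Defs

/-!
# T7: expansion of the coefficients `gg` in `t = y - 1`
-/

set_option autoImplicit false

namespace Pool.Agent.H909R2.Stk

open Finset
open Pool.Agent.H44R2.Stk

/-- order zero -/
noncomputable def al : ℕ → ℕ → ℂ
  | 0, k => if k = 0 then 1 else 0
  | (n + 1), 0 => -(al n 0 + al n 1)
  | (n + 1), (k + 1) => al n (k + 1) + al n k

/-- order one -/
noncomputable def be : ℕ → ℕ → ℂ
  | 0, _ => 0
  | (n + 1), 0 => -(be n 0 + be n 1) - (al n 0 + al n 1)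
  | (n + 1), (k + 1) => be n (k + 1) + be n k - al n (k + 1) - al n (k + 2)

/-- order two -/
noncomputable def ga : ℕ → ℕ → ℂ
  | 0, _ => 0
  | (n + 1), 0 => -(ga n 0 + ga n 1) - (be n 0 + be n 1)
  | (n + 1), (k + 1) => ga n (k + 1) + ga n k - be n (k + 1) - be n (k + 2)

theorem al_bound (n : ℕ) : ∀ k, ‖al n k‖ ≤ 4 ^ n := by
  induction n with
  | zero =>
    intro k
    unfold al
    split_ifs <;> simp
  | succ n ih =>
    intro k
    have h4 : (0 : ℝ) ≤ 4 ^ n := by positivity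
    cases k with
    | zero =>
      have h : al (n + 1) 0 = -(al n 0 + al n 1) := rfl
      rw [h, norm_neg, pow_succ]
      have := norm_add_le (al n 0) (al n 1)
      linarith [ih 0, ih 1]
    | succ k =>
      have h : al (n + 1) (k + 1) = al n (k + 1) + al n k := rfl
      rw [h, pow_succ]
      have := norm_add_le (al n (k + 1)) (al n k)
      linarith [ih k, ih (k + 1)]

theorem be_bound (n : ℕ) : ∀ k, ‖be n k‖ ≤ 4 ^ n := by
  induction n with
  | zero =>
    intro k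
    simp [be]
  | succ n ih =>
    intro k
    cases k with
    | zero =>
      have h : be (n + 1) 0 = -(be n 0 + be n 1) - (al n 0 + al n 1) := rfl
      rw [h, pow_succ]
      have h1 := norm_sub_le (-(be n 0 + be n 1)) (al n 0 + al n 1)
      rw [norm_neg] at h1
      have h2 := norm_add_le (be n 0) (be n 1)
      have h3 := norm_add_le (al n 0) (al n 1)
      linarith [ih 0, ih 1, al_bound n 0, al_bound n 1]
    | succ k =>
      have h : be (n + 1) (k + 1) = be n (k + 1) + be n k - al n (k + 1) - al n (k + 2) := rfl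
      rw [h, pow_succ]
      have h1 := norm_sub_le (be n (k + 1) + be n k - al n (k + 1)) (al n (k + 2))
      have h2 := norm_sub_le (be n (k + 1) + be n k) (al n (k + 1))
      have h3 := norm_add_le (be n (k + 1)) (be n k)
      linarith [ih k, ih (k + 1), al_bound n (k + 1), al_bound n (k + 2)]

theorem ga_bound (n : ℕ) : ∀ k, ‖ga n k‖ ≤ 4 ^ n := by
  induction n with
  | zero =>
    intro k
    simp [ga]
  | succ n ih =>
    intro k
    cases k with
    | zero =>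
      have h : ga (n + 1) 0 = -(ga n 0 + ga n 1) - (be n 0 + be n 1) := rfl
      rw [h, pow_succ]
      have h1 := norm_sub_le (-(ga n 0 + ga n 1)) (be n 0 + be n 1)
      rw [norm_neg] at h1
      have h2 := norm_add_le (ga n 0) (ga n 1)
      have h3 := norm_add_le (be n 0) (be n 1)
      linarith [ih 0, ih 1, be_bound n 0, be_bound n 1]
    | succ k =>
      have h : ga (n + 1) (k + 1) = ga n (k + 1) + ga n k - be n (k + 1) - be n (k + 2) := rfl
      rw [h, pow_succ]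
      have h1 := norm_sub_le (ga n (k + 1) + ga n k - be n (k + 1)) (be n (k + 2))
      have h2 := norm_sub_le (ga n (k + 1) + ga n k) (be n (k + 1))
      have h3 := norm_add_le (ga n (k + 1)) (ga n k)
      linarith [ih k, ih (k + 1), be_bound n (k + 1), be_bound n (k + 2)]

/-- the remainder -/
noncomputable def er (t : ℂ) (n k : ℕ) : ℂ :=
  gg (1 + t) n k - al n k - t * be n k - t ^ 2 * ga n k

theorem er_bound (t : ℂ) (ht : ‖t‖ ≤ 1 / 2) (n : ℕ) :
    ∀ k, ‖er t n k‖ ≤ 2 * ‖t‖ ^ 3 * 4 ^ n := by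
  have ht0 := norm_nonneg t
  have hp : ‖1 + t‖ ≤ 3 / 2 := by
    have := norm_add_le (1 : ℂ) t
    rw [norm_one] at this
    linarith
  have hm : ‖1 - t‖ ≤ 3 / 2 := by
    have := norm_sub_le (1 : ℂ) t
    rw [norm_one] at this
    linarith
  induction n with
  | zero =>
    intro k
    have : er t 0 k = 0 := by
      simp [er, gg, al, be, ga]
    rw [this, norm_zero]
    positivity
  | succ n ih =>
    intro k
    set X : ℝ := ‖t‖ ^ 3 * 4 ^ n with hX
    have hX0 : 0 ≤ X := by positivity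
    have ih' : ∀ k, ‖er t n k‖ ≤ 2 * X := by
      intro k
      have := ih k
      rw [hX]; linarith
    have hgoal : 2 * ‖t‖ ^ 3 * 4 ^ (n + 1) = 8 * X := by rw [hX, pow_succ]; ring
    rw [hgoal]
    cases k with
    | zero =>
      have h : er t (n + 1) 0 = -((1 + t) * (er t n 0 + er t n 1)) -
          t ^ 3 * (ga n 0 + ga n 1) := by
        have h1 : gg (1 + t) (n + 1) 0 = -(1 + t) * (gg (1 + t) n 0 + gg (1 + t) n 1) := rfl
        have h2 : al (n + 1) 0 = -(al n 0 + al n 1) := rfl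
        have h3 : be (n + 1) 0 = -(be n 0 + be n 1) - (al n 0 + al n 1) := rfl
        have h4 : ga (n + 1) 0 = -(ga n 0 + ga n 1) - (be n 0 + be n 1) := rfl
        unfold er
        rw [h1, h2, h3, h4]
        ring
      rw [h]
      have a1 := norm_sub_le (-((1 + t) * (er t n 0 + er t n 1))) (t ^ 3 * (ga n 0 + ga n 1))
      rw [norm_neg, norm_mul, norm_mul, norm_pow] at a1
      have a2 := norm_add_le (er t n 0) (er t n 1)
      have a3 := norm_add_le (ga n 0) (ga n 1)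
      have a4 : ‖ga n 0 + ga n 1‖ ≤ 2 * 4 ^ n := by
        linarith [ga_bound n 0, ga_bound n 1]
      have a5 : ‖t‖ ^ 3 * ‖ga n 0 + ga n 1‖ ≤ 2 * X := by
        calc ‖t‖ ^ 3 * ‖ga n 0 + ga n 1‖ ≤ ‖t‖ ^ 3 * (2 * 4 ^ n) :=
              mul_le_mul_of_nonneg_left a4 (by positivity)
          _ = 2 * X := by rw [hX]; ring
      have a6 : ‖er t n 0 + er t n 1‖ ≤ 4 * X := by linarith [ih' 0, ih' 1]
      have a7 : ‖1 + t‖ * ‖er t n 0 + er t n 1‖ ≤ 3 / 2 * (4 * X) :=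
        mul_le_mul hp a6 (norm_nonneg _) (by norm_num)
      linarith
    | succ k =>
      have h : er t (n + 1) (k + 1) = (1 - t) * er t n (k + 1) - t * er t n (k + 2) + er t n k -
          t ^ 3 * (ga n (k + 1) + ga n (k + 2)) := by
        have h1 : gg (1 + t) (n + 1) (k + 1) = (2 - (1 + t)) * gg (1 + t) n (k + 1) +
          (1 - (1 + t)) * gg (1 + t) n (k + 2) + gg (1 + t) n k := rfl
        have h2 : al (n + 1) (k + 1) = al n (k + 1) + al n k := rfl
        have h3 : be (n + 1) (k + 1) = be n (k + 1) + be n k - al n (k + 1) - al n (k + 2) := rfl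
        have h4 : ga (n + 1) (k + 1) = ga n (k + 1) + ga n k - be n (k + 1) - be n (k + 2) := rfl
        unfold er
        rw [h1, h2, h3, h4]
        ring
      rw [h]
      have a1 := norm_sub_le ((1 - t) * er t n (k + 1) - t * er t n (k + 2) + er t n k)
        (t ^ 3 * (ga n (k + 1) + ga n (k + 2)))
      have a2 := norm_add_le ((1 - t) * er t n (k + 1) - t * er t n (k + 2)) (er t n k)
      have a3 := norm_sub_le ((1 - t) * er t n (k + 1)) (t * er t n (k + 2))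
      rw [norm_mul, norm_mul] at a3
      rw [norm_mul (t ^ 3), norm_pow] at a1
      have a4 : ‖ga n (k + 1) + ga n (k + 2)‖ ≤ 2 * 4 ^ n := by
        have := norm_add_le (ga n (k + 1)) (ga n (k + 2))
        linarith [ga_bound n (k + 1), ga_bound n (k + 2)]
      have a5 : ‖t‖ ^ 3 * ‖ga n (k + 1) + ga n (k + 2)‖ ≤ 2 * X := by
        calc ‖t‖ ^ 3 * ‖ga n (k + 1) + ga n (k + 2)‖ ≤ ‖t‖ ^ 3 * (2 * 4 ^ n) :=
              mul_le_mul_of_nonneg_left a4 (by positivity)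
          _ = 2 * X := by rw [hX]; ring
      have a7 : ‖1 - t‖ * ‖er t n (k + 1)‖ ≤ 3 / 2 * (2 * X) :=
        mul_le_mul hm (ih' _) (norm_nonneg _) (by norm_num)
      have a8 : ‖t‖ * ‖er t n (k + 2)‖ ≤ 1 / 2 * (2 * X) :=
        mul_le_mul ht (ih' _) (norm_nonneg _) (by norm_num)
      linarith [ih' k]

theorem closed (n : ℕ) : al (n + 2) 0 = 0 ∧ al (n + 2) 1 = 0 ∧ al (n + 2) 2 = 1 ∧
    al (n + 2) 3 = (n : ℂ) ∧ be (n + 2) 0 = 1 ∧ be (n + 2) 1 = -2 ∧
    be (n + 2) 2 = 3 - ((n : ℂ) + 2) - ((n : ℂ) + 2) * ((n : ℂ) + 1) / 2 ∧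
    ga (n + 2) 0 = ((n : ℂ) + 2) - ((n : ℂ) + 2) * ((n : ℂ) + 1) / 2 ∧
    ga (n + 2) 1 = ((n : ℂ) + 2) * (n : ℂ) := by
  induction n with
  | zero =>
    refine ⟨?_, ?_, ?_, ?_, ?_, ?_, ?_, ?_, ?_⟩ <;> norm_num [al, be, ga]
  | succ n ih =>
    obtain ⟨h1, h2, h3, h4, h5, h6, h7, h8, h9⟩ := ih
    have e1 : al (n + 2 + 1) 0 = -(al (n + 2) 0 + al (n + 2) 1) := rfl
    have e2 : al (n + 2 + 1) 1 = al (n + 2) 1 + al (n + 2) 0 := rfl
    have e3 : al (n + 2 + 1) 2 = al (n + 2) 2 + al (n + 2) 1 := rfl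
    have e4 : al (n + 2 + 1) 3 = al (n + 2) 3 + al (n + 2) 2 := rfl
    have e5 : be (n + 2 + 1) 0 = -(be (n + 2) 0 + be (n + 2) 1) -
      (al (n + 2) 0 + al (n + 2) 1) := rfl
    have e6 : be (n + 2 + 1) 1 = be (n + 2) 1 + be (n + 2) 0 - al (n + 2) 1 - al (n + 2) 2 := rfl
    have e7 : be (n + 2 + 1) 2 = be (n + 2) 2 + be (n + 2) 1 - al (n + 2) 2 - al (n + 2) 3 := rfl
    have e8 : ga (n + 2 + 1) 0 = -(ga (n + 2) 0 + ga (n + 2) 1) -
      (be (n + 2) 0 + be (n + 2) 1) := rfl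
    have e9 : ga (n + 2 + 1) 1 = ga (n + 2) 1 + ga (n + 2) 0 - be (n + 2) 1 - be (n + 2) 2 := rfl
    have hn : n + 1 + 2 = n + 2 + 1 := by ring
    rw [hn, e1, e2, e3, e4, e5, e6, e7, e8, e9, h1, h2, h3, h4, h5, h6, h7, h8, h9]
    push_cast
    refine ⟨?_, ?_, ?_, ?_, ?_, ?_, ?_, ?_, ?_⟩ <;> ring

theorem gg_expand (t : ℂ) (ht : ‖t‖ ≤ 1 / 2) (n : ℕ) (hn : 2 ≤ n) :
    ‖gg (1 + t) n 0 - (t + t ^ 2 * ((n : ℂ) - (n : ℂ) * (n - 1) / 2))‖ ≤ 2 * ‖t‖ ^ 3 * 4 ^ n := by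
  obtain ⟨m, rfl⟩ : ∃ m, n = m + 2 := ⟨n - 2, by omega⟩
  have h := er_bound t ht (m + 2) 0
  obtain ⟨h1, h2, h3, h4, h5, h6, h7, h8, h9⟩ := closed m
  unfold er at h
  rw [h1, h5, h8] at h
  have e : gg (1 + t) (m + 2) 0 - (t + t ^ 2 * (((m + 2 : ℕ) : ℂ) -
      ((m + 2 : ℕ) : ℂ) * (((m + 2 : ℕ) : ℂ) - 1) / 2)) =
      gg (1 + t) (m + 2) 0 - 0 - t * 1 -
        t ^ 2 * ((m : ℂ) + 2 - ((m : ℂ) + 2) * ((m : ℂ) + 1) / 2) := by
    push_cast
    ring
  rw [e]
  exact h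

theorem gg_zero (y : ℂ) : gg y 0 0 = 1 ∧ gg y 1 0 = -y := by
  constructor
  · simp [gg]
  · simp [gg]

end Pool.Agent.H909R2.Stk
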